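import Pool.Agent.TH926.OSC.Len

set_option autoImplicit false

/-!
Cycles of the 3x+1 map on the integers with bounded oscillation.

For a cycle `Z` with `p` elements, `o` of them odd, such that the absolute value of each element is at
most `B ≥ 3` times the absolute value of each other element, the parities are determined by the visits
of the rotation by `log 2 / log 3` to an interval of length `t = log B / log 3 - 1`. So the number of
elements of `Z` is at most about the `t`-th power of the least one, and `p log 2 - o log 3` is at most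
about `p ^ (1 - 1 / t)`. For `t < 1 / 2` the ratio `o / p` is a convergent of `log 2 / log 3`.
-/

namespace Pool.Agent.Results.MP_edb5be_nt.OscillationConvergents

/-- The 3x+1 map on the integers. -/
def T (x : ℤ) : ℤ := if x % 2 = 0 then x / 2 else (3 * x + 1) / 2

/-- `Z` is a cycle of `T`. -/
def IsCycle (Z : Finset ℤ) : Prop :=
  ∃ (x : ℤ) (p : ℕ), 1 ≤ p ∧ T^[p] x = x ∧ Z = (Finset.range p).image fun i => T^[i] x

/-- The number of odd elements of `Z`. -/
def odds (Z : Finset ℤ) : ℕ := (Z.filter fun x => x % 2 = 1).card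

/-- `Z` is a cycle other than `{0}`, and the absolute value of each of its elements is at most `B` times
the absolute value of each other element. -/
def Osc (B : ℝ) (Z : Finset ℤ) : Prop :=
  IsCycle Z ∧ Z ≠ {0} ∧ ∀ x ∈ Z, ∀ y ∈ Z, |(x : ℝ)| ≤ B * |(y : ℝ)|

/-- The proportion of the odd elements of `Z`. -/
def ratio (Z : Finset ℤ) : ℚ := (odds Z : ℚ) / Z.card

/-- `p log 2 - o log 3`, where `Z` has `p` elements, `o` of them odd. -/
noncomputable def form (Z : Finset ℤ) : ℝ := (Z.card : ℝ) * Real.log 2 - odds Z * Real.log 3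

/-- `S` is finite and has at most `b` elements. -/
def AtMost {α : Type*} (S : Set α) (b : ℝ) : Prop := S.Finite ∧ (S.ncard : ℝ) ≤ b

lemma atMost_of {α : Type*} {S : Set α} {b : ℝ}
    (h : ∀ F : Finset α, (∀ x ∈ F, x ∈ S) → (F.card : ℝ) ≤ b) : AtMost S b := by
  classical
  have hfin : S.Finite := by
    by_contra hinf
    have hinf : S.Infinite := hinf
    obtain ⟨F, hF, hc⟩ := hinf.exists_subset_card_eq (⌊b⌋₊ + 1)
    have h1 := h F (fun x hx => hF (Finset.mem_coe.2 hx))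
    rw [hc] at h1
    have h2 := Nat.lt_floor_add_one b
    push_cast at h1
    linarith
  refine ⟨hfin, ?_⟩
  rw [Set.ncard_eq_toFinset_card S hfin]
  exact h _ fun x hx => hfin.mem_toFinset.1 hx

/-- Let `B ≥ 3` and `t = log B / log 3 - 1`. The cycles `Z` below (`p` elements, `o` of them odd) are
those whose oscillation is at most `B`, other than `{0}`.
(1) If `B < 3 ^ (3 / 2) = 5.196...`, then for all but finitely many of them `o / p` is a convergent of
the continued fraction of `log 2 / log 3`, and those with `p ≤ P` have at most `C (1 + log log P)`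
different ratios `o / p`.
(2) If `κ t < 1`, then `|p log 2 - o log 3| ≤ p ^ (1 - κ)` for all but finitely many of them.
(3) Let `γ > t`. There is `C` such that at most `C X ^ γ` integers of absolute value at most `X` are
elements of such cycles; `p ≤ C |x| ^ γ` for each element `x` of such a cycle; if `γ < 1`, then for each
`lam > 0` at most `C lam ^ (-γ / (1 - γ))` of them satisfy `|p log 2 - o log 3| ≥ lam`; if
`γ > 1 / 14`, then at most `C P ^ (14 γ - 1)` of them have at most `P` elements. -/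
theorem result (B : ℝ) (hB : 3 ≤ B) :
    (B < 3 ^ (3 / 2 : ℝ) →
      {Z : Finset ℤ | Osc B Z ∧ ∀ n, ratio Z ≠ (Real.log 2 / Real.log 3).convergent n}.Finite ∧
      ∃ C : ℝ, ∀ P : ℕ, 3 ≤ P →
        AtMost {r : ℚ | ∃ Z, Osc B Z ∧ Z.card ≤ P ∧ r = ratio Z}
          (C * (1 + Real.log (Real.log P)))) ∧
    (∀ κ : ℝ, κ * (Real.log B / Real.log 3 - 1) < 1 →
      {Z : Finset ℤ | Osc B Z ∧ ¬ |form Z| ≤ (Z.card : ℝ) ^ (1 - κ)}.Finite) ∧
    (∀ γ : ℝ, Real.log B / Real.log 3 - 1 < γ → ∃ C : ℝ,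
      (∀ X : ℝ, 1 ≤ X → AtMost {x : ℤ | |(x : ℝ)| ≤ X ∧ ∃ Z, Osc B Z ∧ x ∈ Z} (C * X ^ γ)) ∧
      (∀ Z, Osc B Z → ∀ x ∈ Z, (Z.card : ℝ) ≤ C * |(x : ℝ)| ^ γ) ∧
      (γ < 1 → ∀ lam : ℝ, 0 < lam →
        AtMost {Z | Osc B Z ∧ lam ≤ |form Z|} (C * lam ^ (-(γ / (1 - γ))))) ∧
      (1 / 14 < γ → ∀ P : ℕ, 1 ≤ P →
        AtMost {Z | Osc B Z ∧ Z.card ≤ P} (C * (P : ℝ) ^ (14 * γ - 1)))) := by
  refine ⟨fun hB2 => ⟨?_, ?_⟩, fun κ hκ => ?_, fun γ hγ => ?_⟩
  · exact Pool.Agent.TH926.OSC.finite_convergent hB hB2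
  · obtain ⟨C, -, h⟩ := Pool.Agent.TH926.OSC.few_ratios hB hB2
    exact ⟨C, fun P hP => atMost_of fun F hF => h P hP F hF⟩
  · have h := Pool.Agent.TH926.OSC.finite_form hB hκ
    refine h.subset ?_
    rintro Z ⟨h1, h2⟩
    exact ⟨h1, not_le.1 h2⟩
  · obtain ⟨C1, hC1, h1⟩ := Pool.Agent.TH926.OSC.count hB hγ
    obtain ⟨C2, hC2, h2⟩ := Pool.Agent.TH926.OSC.one hB hγ
    obtain ⟨C3, hC3, h3⟩ : ∃ C : ℝ, 0 < C ∧ (γ < 1 → ∀ lam : ℝ, 0 < lam →
        AtMost {Z | Osc B Z ∧ lam ≤ |form Z|} (C * lam ^ (-(γ / (1 - γ))))) := by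
      by_cases hγ1 : γ < 1
      · obtain ⟨C, hC, h⟩ := Pool.Agent.TH926.OSC.count_form hB hγ hγ1
        exact ⟨C, hC, fun _ lam hlam => atMost_of fun F hF => h lam hlam F hF⟩
      · exact ⟨1, one_pos, fun h => absurd h hγ1⟩
    obtain ⟨C4, hC4, h4⟩ : ∃ C : ℝ, 0 < C ∧ (1 / 14 < γ → ∀ P : ℕ, 1 ≤ P →
        AtMost {Z | Osc B Z ∧ Z.card ≤ P} (C * (P : ℝ) ^ (14 * γ - 1))) := by
      by_cases hγ1 : 1 / 14 < γ
      · obtain ⟨C, hC, h⟩ := Pool.Agent.TH926.OSC.count_len hB hγ (by linarith)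
        exact ⟨C, hC, fun _ P hP => atMost_of fun F hF => h P hP F hF⟩
      · exact ⟨1, one_pos, fun h => absurd h hγ1⟩
    have m1 : C1 ≤ max (max C1 C2) (max C3 C4) := (le_max_left _ _).trans (le_max_left _ _)
    have m2 : C2 ≤ max (max C1 C2) (max C3 C4) := (le_max_right _ _).trans (le_max_left _ _)
    have m3 : C3 ≤ max (max C1 C2) (max C3 C4) := (le_max_left _ _).trans (le_max_right _ _)
    have m4 : C4 ≤ max (max C1 C2) (max C3 C4) := (le_max_right _ _).trans (le_max_right _ _)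
    refine ⟨max (max C1 C2) (max C3 C4), fun X hX => ?_, fun Z hZ x hx => ?_,
      fun hγ1 lam hlam => ?_, fun hγ1 P hP => ?_⟩
    · have h := atMost_of (S := {x : ℤ | |(x : ℝ)| ≤ X ∧ ∃ Z, Osc B Z ∧ x ∈ Z})
        (b := C1 * X ^ γ) fun F hF => h1 X hX F hF
      exact ⟨h.1, h.2.trans (mul_le_mul_of_nonneg_right m1 (by positivity))⟩
    · exact ((h2 Z hZ).1 x hx).trans (mul_le_mul_of_nonneg_right m2 (by positivity))
    · have h := h3 hγ1 lam hlam
      exact ⟨h.1, h.2.trans (mul_le_mul_of_nonneg_right m3 (by positivity))⟩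
    · have h := h4 hγ1 P hP
      exact ⟨h.1, h.2.trans (mul_le_mul_of_nonneg_right m4 (by positivity))⟩

end Pool.Agent.Results.MP_edb5be_nt.OscillationConvergents
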